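import Pool.Agent.H70.ES.Avg

/-!
# One level, tests (A)
-/

set_option autoImplicit false

namespace Pool.Agent.H70.ES

open Finset Pool.Agent.H18.MR Pool.Agent.H93.DE Pool.Agent.H6.N4D Pool.Agent.H93.ES

lemma rho_pow (w : ℕ) (hw : 1 ≤ w) : w < 2 ^ rho w ∧ 2 ^ rho w ≤ 2 ^ 30 * w := by
  unfold rho
  constructor
  · calc w < 2 ^ (Nat.log 2 w + 1) := Nat.lt_pow_succ_log_self (by norm_num) _
      _ ≤ 2 ^ (Nat.log 2 w + 30) := Nat.pow_le_pow_right (by norm_num) (by omega)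
  · rw [pow_add, mul_comm]
    exact Nat.mul_le_mul_left _ (Nat.pow_log_le_self 2 (by omega))

attribute [local irreducible] rho

/-- the exponential test -/
noncomputable def TT (κ : ℝ) (w m : ℕ) (e : Fin (2 ^ rho w) → Fin (2 ^ (w - rho w))) (q : ℕ)
    (W : Fin (2 ^ m) → Fin (2 ^ rho w) → Bool) (lab : Fin (2 ^ w)) (r : ℕ) : ℝ :=
  ∑ k ∈ range (2 ^ rho w + 1),
    Real.exp (κ * ‖smpW m (kA q r ((lab : ℕ) / 2 ^ w)) e k W‖ ^ 2)

lemma TT_pos (κ : ℝ) (w m : ℕ) (e : Fin (2 ^ rho w) → Fin (2 ^ (w - rho w))) (q : ℕ)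
    (W : Fin (2 ^ m) → Fin (2 ^ rho w) → Bool) (lab : Fin (2 ^ w)) (r : ℕ) :
    0 < TT κ w m e q W lab r :=
  sum_pos (fun k _ => Real.exp_pos _) ⟨0, mem_range.2 (Nat.succ_pos _)⟩

/-- the mean of the exponential test over the classes -/
noncomputable def YY {N : ℕ} [NeZero N] (x : ZMod N → Bool) (κ : ℝ) (w m : ℕ)
    (l : ZMod N → Fin (2 ^ w)) (e : Fin (2 ^ rho w) → Fin (2 ^ (w - rho w))) (q : ℕ)
    (n : ZMod N) : ℝ :=
  (∑ r ∈ range q, TT κ w m e q (wd (tup x (pos e)) (2 ^ m) n) (l n) r) / q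

lemma YY_pos {N : ℕ} [NeZero N] (x : ZMod N → Bool) (κ : ℝ) (w m : ℕ)
    (l : ZMod N → Fin (2 ^ w)) (e : Fin (2 ^ rho w) → Fin (2 ^ (w - rho w))) {q : ℕ}
    (hq : 0 < q) (n : ZMod N) : 0 < YY x κ w m l e q n := by
  have h1 : (0 : ℝ) < q := by exact_mod_cast hq
  exact div_pos (sum_pos (fun r _ => TT_pos _ _ _ _ _ _ _ _) ⟨0, mem_range.2 hq⟩) h1

lemma avE_YY {N : ℕ} [NeZero N] (x : ZMod N → Bool) (κ : ℝ) (w m : ℕ)
    (l : ZMod N → Fin (2 ^ w)) (q : ℕ) (n : ZMod N) :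
    avE (2 ^ rho w) (2 ^ (w - rho w)) (fun e => YY x κ w m l e q n) =
      (∑ r₀ ∈ range q, avE (2 ^ rho w) (2 ^ (w - rho w)) (fun e =>
        ∑ k ∈ range (2 ^ rho w + 1),
          Real.exp (κ * ‖smp (ltr x n) m (kA q r₀ ((l n : ℕ) / 2 ^ w)) e k‖ ^ 2))) / q := by
  unfold YY
  rw [avE_div, avE_sum (range q) (fun r e => TT κ w m e q (wd (tup x (pos e)) (2 ^ m) n) (l n) r)]
  congr 1
  refine sum_congr rfl fun r _ => ?_
  congr 1
  funext e
  unfold TT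
  exact sum_congr rfl fun k _ => by rw [smp_eq]

/-- the tests of one octave -/
lemma one_oct (hDVO : T_DVO) {C : ℝ} (hC : 1 ≤ C) {w m : ℕ}
    (hexa : ∀ (f : ℕ → ℝ) (α : ℝ), (∀ t, |f t| ≤ 1) →
      ∑ q ∈ oct m, (∑ r₀ ∈ range q, avE (2 ^ rho w) (2 ^ (w - rho w)) (fun e =>
      ∑ k ∈ range (2 ^ rho w + 1), Real.exp ((w : ℝ) / 10 ^ 6 * ‖smp f m (kA q r₀ α) e k‖ ^ 2))) / q
    ≤ C * (2 ^ rho w + 1) * (oct m).card)
    (N : ℕ) [NeZero N] (x : ZMod N → Bool) (l : ZMod N → Fin (2 ^ w)) (k : ZMod N → ℕ → ℕ)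
    (hk : ∀ n q, k n q ≤ 2 ^ rho w) (hN : primorial (2 ^ (m + 1)) ∣ N) :
    avZ (fun n => ∑ q ∈ oct m, avE (2 ^ rho w) (2 ^ (w - rho w)) (fun e => (w : ℝ) / 10 ^ 6 *
      ‖smp (ltr x n) m (kA q n.val ((l n : ℕ) / 2 ^ w)) e (k n q)‖ ^ 2)) ≤
    avE (2 ^ rho w) (2 ^ (w - rho w)) (fun e =>
      info (tup x (pos e)) (2 ^ m) (primorial (2 ^ m)) (pr m)) + w * Real.log 2 +
      (oct m).card * Real.log (C * (2 ^ rho w + 1)) := by
  have hD : 0 < 2 ^ (w - rho w) := by positivity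
  obtain ⟨κ, hκ⟩ : ∃ κ : ℝ, κ = (w : ℝ) / 10 ^ 6 := ⟨_, rfl⟩
  obtain ⟨c, hc⟩ : ∃ c : ℝ, c = C * (2 ^ rho w + 1) := ⟨_, rfl⟩
  have hc0 : 0 < c := by rw [hc]; positivity
  rw [← hκ] at hexa
  rw [← hc] at hexa
  rw [← hκ, ← hc]
  have hdvo : ∀ e : Fin (2 ^ rho w) → Fin (2 ^ (w - rho w)),
      avZ (fun n => ∑ q ∈ oct m, Real.log (TT κ w m e q (wd (tup x (pos e)) (2 ^ m) n) (l n)
        (n.val % q))) ≤
      info (tup x (pos e)) (2 ^ m) (primorial (2 ^ m)) (pr m) + w * Real.log 2 +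
        avZ (fun n => ∑ q ∈ oct m, (Real.log c - 1 + YY x κ w m l e q n / c)) := by
    intro e
    have h1 := hDVO N (2 ^ rho w) m (2 ^ w) x (pos e) l
      (fun q W lab r => Real.log (TT κ w m e q W lab r)) hN
    have h2 : Real.log ((2 ^ w : ℕ) : ℝ) = w * Real.log 2 := by
      push_cast
      rw [Real.log_pow]
    rw [h2] at h1
    refine h1.trans ?_
    have h3 : avZ (fun n => ∑ q ∈ oct m, Real.log ((∑ r ∈ range q,
        Real.exp (Real.log (TT κ w m e q (wd (tup x (pos e)) (2 ^ m) n) (l n) r))) / q)) ≤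
        avZ (fun n => ∑ q ∈ oct m, (Real.log c - 1 + YY x κ w m l e q n / c)) := by
      refine avZ_mono fun n => sum_le_sum fun q hq => ?_
      have h4 : (∑ r ∈ range q,
          Real.exp (Real.log (TT κ w m e q (wd (tup x (pos e)) (2 ^ m) n) (l n) r))) / (q : ℝ) =
          YY x κ w m l e q n := by
        unfold YY
        congr 1
        exact sum_congr rfl fun r _ => Real.exp_log (TT_pos _ _ _ _ _ _ _ _)
      rw [h4]
      have h5 := YY_pos x κ w m l e (mem_oct hq).2.2.pos n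
      have h6 := Real.log_le_sub_one_of_pos (div_pos h5 hc0)
      rw [Real.log_div h5.ne' hc0.ne'] at h6
      linarith
    linarith
  -- average over the samples
  have h1 : avE (2 ^ rho w) (2 ^ (w - rho w)) (fun e => avZ (fun n => ∑ q ∈ oct m,
      Real.log (TT κ w m e q (wd (tup x (pos e)) (2 ^ m) n) (l n) (n.val % q)))) ≤
      avE (2 ^ rho w) (2 ^ (w - rho w)) (fun e =>
        info (tup x (pos e)) (2 ^ m) (primorial (2 ^ m)) (pr m)) + w * Real.log 2 +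
        avE (2 ^ rho w) (2 ^ (w - rho w)) (fun e =>
          avZ (fun n => ∑ q ∈ oct m, (Real.log c - 1 + YY x κ w m l e q n / c))) := by
    refine (avE_mono hdvo).trans (le_of_eq ?_)
    rw [avE_add, avE_add, avE_const hD]
  have h2 : avE (2 ^ rho w) (2 ^ (w - rho w)) (fun e =>
      avZ (fun n => ∑ q ∈ oct m, (Real.log c - 1 + YY x κ w m l e q n / c))) ≤
      (oct m).card * Real.log c := by
    rw [← avZ_avE (fun n e => ∑ q ∈ oct m, (Real.log c - 1 + YY x κ w m l e q n / c))]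
    have h3 : ∀ n : ZMod N, avE (2 ^ rho w) (2 ^ (w - rho w)) (fun e =>
        ∑ q ∈ oct m, (Real.log c - 1 + YY x κ w m l e q n / c)) ≤ (oct m).card * Real.log c := by
      intro n
      rw [avE_sum (oct m) (fun q e => Real.log c - 1 + YY x κ w m l e q n / c)]
      have h4 : ∀ q ∈ oct m, avE (2 ^ rho w) (2 ^ (w - rho w)) (fun e =>
          Real.log c - 1 + YY x κ w m l e q n / c) = Real.log c - 1 +
          (∑ r₀ ∈ range q, avE (2 ^ rho w) (2 ^ (w - rho w)) (fun e =>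
            ∑ k ∈ range (2 ^ rho w + 1),
              Real.exp (κ * ‖smp (ltr x n) m (kA q r₀ ((l n : ℕ) / 2 ^ w)) e k‖ ^ 2))) / q / c := by
        intro q _
        rw [avE_add, avE_const hD, avE_div, avE_YY]
      rw [sum_congr rfl h4, sum_add_distrib, ← sum_div, sum_const, nsmul_eq_mul]
      have h5 := hexa (ltr x n) ((l n : ℕ) / 2 ^ w) (abs_ltr x n)
      have h6 := (div_le_iff₀' hc0).2 h5
      linarith
    refine (avZ_mono h3).trans (le_of_eq ?_)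
    rw [avZ_const]
  have h3 : avZ (fun n => ∑ q ∈ oct m, avE (2 ^ rho w) (2 ^ (w - rho w)) (fun e => κ *
      ‖smp (ltr x n) m (kA q n.val ((l n : ℕ) / 2 ^ w)) e (k n q)‖ ^ 2)) ≤
      avE (2 ^ rho w) (2 ^ (w - rho w)) (fun e => avZ (fun n => ∑ q ∈ oct m,
      Real.log (TT κ w m e q (wd (tup x (pos e)) (2 ^ m) n) (l n) (n.val % q)))) := by
    rw [← avZ_avE (fun n e => ∑ q ∈ oct m,
      Real.log (TT κ w m e q (wd (tup x (pos e)) (2 ^ m) n) (l n) (n.val % q)))]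
    refine avZ_mono fun n => ?_
    rw [avE_sum (oct m) (fun q e =>
      Real.log (TT κ w m e q (wd (tup x (pos e)) (2 ^ m) n) (l n) (n.val % q)))]
    refine sum_le_sum fun q _ => avE_mono fun e => ?_
    rw [Real.le_log_iff_exp_le (TT_pos _ _ _ _ _ _ _ _)]
    unfold TT
    rw [kA_mod, smp_eq]
    exact single_le_sum (f := fun k => Real.exp (κ *
      ‖smpW m (kA q n.val ((l n : ℕ) / 2 ^ w)) e k (wd (tup x (pos e)) (2 ^ m) n)‖ ^ 2))
      (fun k _ => (Real.exp_pos _).le) (mem_range.2 (by have := hk n q; omega))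
  linarith

/-- rounding of a frequency -/
lemma rnd (w : ℕ) (a : ℝ) : ∃ (l : Fin (2 ^ w)) (z : ℤ) (δ : ℝ),
    a = z + (l : ℕ) / 2 ^ w + δ ∧ 0 ≤ δ ∧ δ ≤ 1 / 2 ^ w := by
  have h2 : (0 : ℝ) < 2 ^ w := by positivity
  have h0 := Int.fract_nonneg a
  have h1 := Int.fract_lt_one a
  have h3 : 0 ≤ Int.fract a * 2 ^ w := by positivity
  have h4 : ⌊Int.fract a * 2 ^ w⌋₊ < 2 ^ w := by
    rw [Nat.floor_lt h3]
    push_cast
    nlinarith
  refine ⟨⟨⌊Int.fract a * 2 ^ w⌋₊, h4⟩, ⌊a⌋, Int.fract a - ⌊Int.fract a * 2 ^ w⌋₊ / 2 ^ w, ?_, ?_,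
    ?_⟩
  · have := Int.floor_add_fract a
    dsimp only
    linarith
  · have h5 := Nat.floor_le h3
    rw [sub_nonneg, div_le_iff₀ h2]
    exact h5
  · have h5 := Nat.lt_floor_add_one (Int.fract a * 2 ^ w)
    rw [sub_le_iff_le_add, ← add_div, le_div_iff₀ h2]
    linarith

/-- change of the frequency to the rounded one -/
lemma kA_rnd {q r₀ w : ℕ} {a δ : ℝ} {l : ℕ} {z : ℤ} (h : a = z + (l : ℝ) / 2 ^ w + δ) (t : ℕ) :
    kA q r₀ a t = kA q r₀ ((l : ℝ) / 2 ^ w) t * ee (-(δ * t)) := by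
  unfold kA
  have h1 : -(a * t) = ((-(z * t) : ℤ) : ℝ) + (-((l : ℝ) / 2 ^ w * t) + -(δ * t)) := by
    rw [h]
    push_cast
    ring
  rw [h1, ee_add, ee_add, ee_int]
  ring

lemma geo_le {w : ℕ} (hw : 800 ≤ w) :
    ∑ m ∈ Ico (w / 400) (w / 200), (1 : ℝ) / 2 ^ m ≤ 800 / w := by
  have hw0 : (0 : ℝ) < w := by
    have : 0 < w := by omega
    exact_mod_cast this
  have h1 : ∀ a b : ℕ, a ≤ b → ∑ m ∈ Ico a b, (1 : ℝ) / 2 ^ m ≤ 2 / 2 ^ a := by
    intro a b hab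
    have h2 : ∑ m ∈ Ico a b, (1 : ℝ) / 2 ^ m = 2 / 2 ^ a - 2 / 2 ^ b := by
      induction b, hab using Nat.le_induction with
      | base => simp
      | succ b hb ih =>
        rw [sum_Ico_succ_top hb, ih, pow_succ]
        field_simp
        ring
    rw [h2]
    have : (0 : ℝ) ≤ 2 / 2 ^ b := by positivity
    linarith
  refine (h1 _ _ (by omega)).trans ?_
  have h3 : w < 400 * (w / 400 + 1) := by omega
  have h4 : w / 400 + 1 ≤ 2 ^ (w / 400) := Nat.lt_two_pow_self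
  have h5 : w ≤ 400 * 2 ^ (w / 400) := by omega
  have h6 : (w : ℝ) ≤ 400 * 2 ^ (w / 400) := by exact_mod_cast h5
  rw [div_le_div_iff₀ (by positivity) hw0]
  linarith

lemma oct_inj {m m' q : ℕ} (h : q ∈ oct m) (h' : q ∈ oct m') : m = m' := by
  obtain ⟨a1, a2, -⟩ := mem_oct h
  obtain ⟨b1, b2, -⟩ := mem_oct h'
  have c1 : m < m' + 1 := (Nat.pow_lt_pow_iff_right (by norm_num : 1 < 2)).1
    (lt_of_lt_of_le a1 b2)
  have c2 : m' < m + 1 := (Nat.pow_lt_pow_iff_right (by norm_num : 1 < 2)).1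
    (lt_of_lt_of_le b1 a2)
  omega

lemma oct_sub {w m q : ℕ} (hm1 : w / 400 ≤ m) (hm2 : m < w / 200) (h : q ∈ oct m) :
    q ∈ Pool.Agent.H93.EB.QQ w := by
  obtain ⟨a1, a2, a3⟩ := mem_oct h
  unfold Pool.Agent.H93.EB.QQ
  rw [mem_filter, mem_Ioc]
  have b1 : 2 ^ (w / 400) ≤ 2 ^ m := Nat.pow_le_pow_right (by norm_num) hm1
  have b2 : 2 ^ (m + 1) ≤ 2 ^ (w / 200) := Nat.pow_le_pow_right (by norm_num) (by omega)
  exact ⟨⟨lt_of_le_of_lt b1 a1, a2.trans b2⟩, a3⟩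

lemma sum_oct_le (w : ℕ) : ∑ m ∈ Ico (w / 400) (w / 200), ∑ q ∈ oct m, 1 / (q : ℝ) ≤
    ∑ q ∈ Pool.Agent.H93.EB.QQ w, 1 / (q : ℝ) := by
  have hdis : ∀ m ∈ Ico (w / 400) (w / 200), ∀ m' ∈ Ico (w / 400) (w / 200), m ≠ m' →
      Disjoint (oct m) (oct m') := by
    intro m _ m' _ hne
    rw [Finset.disjoint_left]
    intro q h1 h2
    exact hne (oct_inj h1 h2)
  rw [← sum_biUnion hdis]
  refine sum_le_sum_of_subset_of_nonneg ?_ fun q _ _ => by positivity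
  intro q hq
  rw [mem_biUnion] at hq
  obtain ⟨m, hm, hq⟩ := hq
  rw [mem_Ico] at hm
  exact oct_sub hm.1 hm.2 hq

lemma oct_card_le {w : ℕ} {W : ℝ} (hqsu : ∑ q ∈ Pool.Agent.H93.EB.QQ w, 1 / (q : ℝ) ≤ W) :
    ∑ m ∈ Ico (w / 400) (w / 200), (1 / 2 ^ m) * ((oct m).card : ℝ) ≤ 2 * W := by
  have h1 : ∑ m ∈ Ico (w / 400) (w / 200), (1 / 2 ^ m) * ((oct m).card : ℝ) ≤
      2 * ∑ m ∈ Ico (w / 400) (w / 200), ∑ q ∈ oct m, 1 / (q : ℝ) := by
    rw [mul_sum]
    refine sum_le_sum fun m _ => ?_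
    have h2 : ∑ q ∈ oct m, (1 : ℝ) / 2 ^ (m + 1) ≤ ∑ q ∈ oct m, 1 / (q : ℝ) := by
      refine sum_le_sum fun q hq => ?_
      obtain ⟨a1, a2, a3⟩ := mem_oct hq
      have hq0 : (0 : ℝ) < q := by exact_mod_cast a3.pos
      apply one_div_le_one_div_of_le hq0
      have : (q : ℝ) ≤ ((2 ^ (m + 1) : ℕ) : ℝ) := by exact_mod_cast a2
      push_cast at this
      exact this
    rw [sum_const, nsmul_eq_mul] at h2
    have h3 : (1 : ℝ) / 2 ^ m * (oct m).card = 2 * ((oct m).card * (1 / 2 ^ (m + 1))) := by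
      rw [pow_succ]
      field_simp
    rw [h3]
    exact mul_le_mul_of_nonneg_left h2 (by norm_num)
  have := sum_oct_le w
  linarith

lemma log_le {w : ℕ} {C : ℝ} (hC : 1 ≤ C) (hw : 800 ≤ w) :
    0 ≤ Real.log (C * (2 ^ rho w + 1)) ∧
    Real.log (C * (2 ^ rho w + 1)) ≤ (Real.log C + 40) * Real.log w := by
  obtain ⟨hr1, hr2⟩ := rho_pow w (by omega)
  have hr1' : (w : ℝ) < 2 ^ rho w := by exact_mod_cast hr1
  have hr2' : (2 : ℝ) ^ rho w ≤ 2 ^ 30 * w := by exact_mod_cast hr2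
  have hwr : (800 : ℝ) ≤ w := by exact_mod_cast hw
  have hw0 : (0 : ℝ) < w := by linarith
  have hlogC : 0 ≤ Real.log C := Real.log_nonneg hC
  have hlw : 1 ≤ Real.log w := by
    rw [Real.le_log_iff_exp_le hw0]
    have := Real.exp_one_lt_d9
    linarith
  have hC0 : 0 < C := by linarith
  obtain ⟨r, hr⟩ : ∃ r : ℝ, r = 2 ^ rho w := ⟨_, rfl⟩
  rw [← hr] at hr1' hr2' ⊢
  have hr0 : 0 < r := by linarith
  constructor
  · apply Real.log_nonneg
    have : (1 : ℝ) ≤ r + 1 := by linarith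
    nlinarith
  · rw [Real.log_mul hC0.ne' (by positivity)]
    have h1 : r + 1 ≤ 2 ^ 31 * w := by
      have h5 : (2 : ℝ) ^ 31 * w = 2 ^ 30 * w + 2 ^ 30 * w := by ring
      have h6 : (1 : ℝ) ≤ 2 ^ 30 * w := by
        have h7 : (1 : ℝ) ≤ 2 ^ 30 := by norm_num
        nlinarith
      linarith
    have h2 : Real.log (r + 1) ≤ 31 * Real.log 2 + Real.log w := by
      refine (Real.log_le_log (by positivity) h1).trans (le_of_eq ?_)
      rw [Real.log_mul (by positivity) hw0.ne', Real.log_pow]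
      push_cast
      ring
    have h3 := Real.log_two_lt_d9
    have h4 : Real.log C ≤ Real.log C * Real.log w := le_mul_of_one_le_right hlogC hlw
    nlinarith

lemma mi_nn {Ω α β : Type*} (μ : FAP Ω) [Fintype α] [DecidableEq α] [Fintype β]
    [DecidableEq β] (X : Ω → α) (Y : Ω → β) : 0 ≤ mi μ X Y := by
  have := dv_event μ X Y (fun _ _ => False)
  simpa using this

lemma info_nonneg {γ : Type} [Fintype γ] [DecidableEq γ] {N : ℕ} [NeZero N] (x : ZMod N → γ)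
    (L M P : ℕ) : 0 ≤ info x L M P := by
  unfold info
  by_cases h : M = 0
  · rw [dif_pos h]
  · by_cases h' : P = 0
    · rw [dif_neg h, dif_pos h']
    · rw [dif_neg h, dif_neg h']
      haveI : NeZero M := ⟨h⟩
      haveI : NeZero P := ⟨h'⟩
      exact mi_nn _ _ _

lemma inf_nonneg {N : ℕ} [NeZero N] (x : ZMod N → Bool) (w : ℕ) :
    0 ≤ Pool.Agent.H93.ES.inf x w :=
  sum_nonneg fun _ _ => div_nonneg (avE_nonneg fun _ => info_nonneg _ _ _ _) (by positivity)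

theorem pf_LVA (hDVO : T_DVO) (hEXA : T_EXA) (hABL : T_ABL) (hQSU : T_QSU) : T_LVA := by
  intro V hV
  obtain ⟨C, w₁, hC, hexa⟩ := hEXA
  obtain ⟨w₂, habl⟩ := hABL
  obtain ⟨W, hW, hqsu⟩ := hQSU
  obtain ⟨A, hA⟩ : ∃ A : ℝ, A = 2 * (1 + (V + 7)) ^ 2 := ⟨_, rfl⟩
  have hA0 : 0 < A := by rw [hA]; positivity
  obtain ⟨E, hE⟩ : ∃ E : ℝ, E = 2 ^ 30 * 10 ^ 6 + 2 * 10 ^ 6 * 400 +
    2 * W * (10 ^ 6 * (Real.log C + 40)) + 200 * W := ⟨_, rfl⟩
  have hlogC : 0 ≤ Real.log C := Real.log_nonneg hC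
  have hE0 : 0 < E := by rw [hE]; positivity
  refine ⟨A * E, max (max w₁ w₂) 800, by positivity, ?_⟩
  intro N w _ x α g hw hN hg
  have hw1 : w₁ ≤ w := (le_max_left _ _).trans ((le_max_left _ _).trans hw)
  have hw2 : w₂ ≤ w := (le_max_right _ _).trans ((le_max_left _ _).trans hw)
  have hw8 : 800 ≤ w := (le_max_right _ _).trans hw
  have hwr : (800 : ℝ) ≤ w := by exact_mod_cast hw8
  have hw0 : (0 : ℝ) < w := by linarith
  have h2w : (0 : ℝ) < 2 ^ w := by positivity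
  -- rounding
  choose l z δ hrd hδ0 hδ1 using fun n : ZMod N => rnd w (α n)
  -- the choice of the partial sums
  have hch : ∀ (n : ZMod N) (q : ℕ), ∃ k ≤ 2 ^ rho w, ∀ m ∈ Ico (w / 400) (w / 200), q ∈ oct m →
      ‖wm (ltr x n) w (fun t => kA q n.val (α n) t * g n q t)‖ ^ 2 ≤
      A * (avE (2 ^ rho w) (2 ^ (w - rho w)) (fun e =>
      ‖smp (ltr x n) m (kA q n.val ((l n : ℕ) / 2 ^ w)) e k‖ ^ 2) + 100 / (2 ^ rho w) ^ 2) := by
    intro n q
    by_cases hq : ∃ m ∈ Ico (w / 400) (w / 200), q ∈ oct m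
    · obtain ⟨m, hm, hqm⟩ := hq
      rw [mem_Ico] at hm
      have hqQ : q ∈ Pool.Agent.H93.EB.QQ w := oct_sub hm.1 hm.2 hqm
      obtain ⟨hg1, hg2⟩ := hg n q hqQ
      have hgn : ∀ t : ℕ, t < 2 ^ w → ‖ee (-(δ n * (t : ℝ))) * g n q t‖ ≤ 1 := by
        intro t ht
        rw [norm_mul, norm_ee, one_mul]
        exact hg1 t ht
      have hgv : ∑ t ∈ range (2 ^ w - 1), ‖ee (-(δ n * ((t + 1 : ℕ) : ℝ))) * g n q (t + 1) -
          ee (-(δ n * (t : ℝ))) * g n q t‖ ≤ V + 7 := by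
        have hstep : ∀ t ∈ range (2 ^ w - 1), ‖ee (-(δ n * ((t + 1 : ℕ) : ℝ))) * g n q (t + 1) -
            ee (-(δ n * (t : ℝ))) * g n q t‖ ≤ ‖g n q (t + 1) - g n q t‖ + 7 / 2 ^ w := by
          intro t ht
          rw [mem_range] at ht
          have e1 : ee (-(δ n * ((t + 1 : ℕ) : ℝ))) * g n q (t + 1) -
              ee (-(δ n * (t : ℝ))) * g n q t =
              ee (-(δ n * ((t + 1 : ℕ) : ℝ))) * (g n q (t + 1) - g n q t) +
              (ee (-(δ n * (t : ℝ))) * (ee (-(δ n)) - 1)) * g n q t := by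
            have e2 : -(δ n * ((t + 1 : ℕ) : ℝ)) = -(δ n * t) + -(δ n) := by
              push_cast
              ring
            rw [e2, ee_add]
            ring
          rw [e1]
          refine (norm_add_le _ _).trans ?_
          rw [norm_mul, norm_mul, norm_mul, norm_ee, norm_ee, one_mul, one_mul]
          have e3 := norm_ee_sub_one_le (-(δ n))
          rw [abs_neg, abs_of_nonneg (hδ0 n)] at e3
          have e4 := hg1 t (by omega)
          have e5 : ‖ee (-(δ n)) - 1‖ * ‖g n q t‖ ≤ 7 / 2 ^ w := by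
            calc ‖ee (-(δ n)) - 1‖ * ‖g n q t‖ ≤ ‖ee (-(δ n)) - 1‖ * 1 :=
                  mul_le_mul_of_nonneg_left e4 (norm_nonneg _)
              _ ≤ 2 * Real.pi * δ n := by rw [mul_one]; exact e3
              _ ≤ 7 * (1 / 2 ^ w) := by
                  have := Real.pi_lt_d2
                  have := Real.pi_pos
                  have h7 : 2 * Real.pi ≤ 7 := by linarith
                  exact mul_le_mul h7 (hδ1 n) (hδ0 n) (by norm_num)
              _ = 7 / 2 ^ w := by ring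
          linarith
        refine (sum_le_sum hstep).trans ?_
        rw [sum_add_distrib, sum_const, card_range, nsmul_eq_mul]
        have e6 : ((2 ^ w - 1 : ℕ) : ℝ) * (7 / 2 ^ w) ≤ 7 := by
          have e7 : ((2 ^ w - 1 : ℕ) : ℝ) ≤ 2 ^ w := by
            have : 2 ^ w - 1 ≤ 2 ^ w := Nat.sub_le _ _
            exact_mod_cast this
          calc ((2 ^ w - 1 : ℕ) : ℝ) * (7 / 2 ^ w) ≤ 2 ^ w * (7 / 2 ^ w) :=
                mul_le_mul_of_nonneg_right e7 (by positivity)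
            _ = 7 := by field_simp
        linarith
      obtain ⟨k, hk, hk2⟩ := habl w m q n.val (ltr x n) ((l n : ℕ) / 2 ^ w) (V + 7)
        (fun t => ee (-(δ n * (t : ℝ))) * g n q t) hw2 hm.2 hqm (abs_ltr x n) (by linarith) hgn hgv
      refine ⟨k, hk, fun m' hm' hqm' => ?_⟩
      have hmm : m' = m := oct_inj hqm' hqm
      rw [hmm, hA]
      have e8 : wm (ltr x n) w (fun t => kA q n.val (α n) t * g n q t) =
          wm (ltr x n) w (fun t => kA q n.val ((l n : ℕ) / 2 ^ w) t *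
            (ee (-(δ n * (t : ℝ))) * g n q t)) := by
        congr 1
        funext t
        rw [kA_rnd (hrd n) t]
        ring
      rw [e8]
      exact hk2
    · refine ⟨0, Nat.zero_le _, fun m hm hqm => ?_⟩
      exact (hq ⟨m, hm, hqm⟩).elim
  choose k hk hk2 using hch
  -- the sum over the octaves
  have hmain : avZ (fun n => ∑ q ∈ Pool.Agent.H93.EB.QQ w, 1 / (q : ℝ) *
      ‖wm (ltr x n) w (fun t => kA q n.val (α n) t * g n q t)‖ ^ 2) ≤
      ∑ m ∈ Ico (w / 400) (w / 200), A * ((1 / 2 ^ m) * (10 ^ 6 / w * (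
        avE (2 ^ rho w) (2 ^ (w - rho w)) (fun e =>
          info (tup x (pos e)) (2 ^ m) (primorial (2 ^ m)) (pr m)) + w * Real.log 2 +
        (oct m).card * Real.log (C * (2 ^ rho w + 1))) +
        (oct m).card * (100 / (2 ^ rho w) ^ 2))) := by
    have h1 : avZ (fun n => ∑ q ∈ Pool.Agent.H93.EB.QQ w, 1 / (q : ℝ) *
        ‖wm (ltr x n) w (fun t => kA q n.val (α n) t * g n q t)‖ ^ 2) ≤
        avZ (fun n => ∑ m ∈ Ico (w / 400) (w / 200), ∑ q ∈ oct m, 1 / (q : ℝ) *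
        ‖wm (ltr x n) w (fun t => kA q n.val (α n) t * g n q t)‖ ^ 2) :=
      avZ_mono fun n => sum_QQ_le fun q => by positivity
    refine h1.trans ?_
    rw [avZ_sum (Ico (w / 400) (w / 200)) (fun m n => ∑ q ∈ oct m, 1 / (q : ℝ) *
        ‖wm (ltr x n) w (fun t => kA q n.val (α n) t * g n q t)‖ ^ 2)]
    refine sum_le_sum fun m hm => ?_
    have hm' := mem_Ico.1 hm
    have hN' : primorial (2 ^ (m + 1)) ∣ N :=
      (primorial_dvd (Nat.pow_le_pow_right (by norm_num) (by omega))).trans hN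
    have h2 := one_oct hDVO hC (w := w) (m := m)
      (fun f a hf => hexa w m f a hw1 hm'.1 hm'.2 hf) N x l k hk hN'
    have h3 : ∀ n : ZMod N, ∑ q ∈ oct m, 1 / (q : ℝ) *
        ‖wm (ltr x n) w (fun t => kA q n.val (α n) t * g n q t)‖ ^ 2 ≤
        A * (1 / 2 ^ m) * (10 ^ 6 / w) * (∑ q ∈ oct m,
          avE (2 ^ rho w) (2 ^ (w - rho w)) (fun e => (w : ℝ) / 10 ^ 6 *
          ‖smp (ltr x n) m (kA q n.val ((l n : ℕ) / 2 ^ w)) e (k n q)‖ ^ 2)) +
        A * ((1 / 2 ^ m) * ((oct m).card * (100 / (2 ^ rho w) ^ 2))) := by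
      intro n
      have h4 : ∀ q ∈ oct m, 1 / (q : ℝ) *
          ‖wm (ltr x n) w (fun t => kA q n.val (α n) t * g n q t)‖ ^ 2 ≤
          A * (1 / 2 ^ m) * (10 ^ 6 / w) * avE (2 ^ rho w) (2 ^ (w - rho w)) (fun e =>
            (w : ℝ) / 10 ^ 6 *
            ‖smp (ltr x n) m (kA q n.val ((l n : ℕ) / 2 ^ w)) e (k n q)‖ ^ 2) +
          A * (1 / 2 ^ m) * (100 / (2 ^ rho w) ^ 2) := by
        intro q hq
        have h5 := hk2 n q m hm hq
        obtain ⟨a1, -, -⟩ := mem_oct hq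
        have h6 : 1 / (q : ℝ) ≤ 1 / 2 ^ m := by
          apply one_div_le_one_div_of_le (by positivity)
          have : ((2 ^ m : ℕ) : ℝ) ≤ q := by exact_mod_cast a1.le
          push_cast at this
          exact this
        rw [avE_mul]
        calc 1 / (q : ℝ) * ‖wm (ltr x n) w (fun t => kA q n.val (α n) t * g n q t)‖ ^ 2 ≤
              1 / 2 ^ m * (A * (avE (2 ^ rho w) (2 ^ (w - rho w)) (fun e =>
                ‖smp (ltr x n) m (kA q n.val ((l n : ℕ) / 2 ^ w)) e (k n q)‖ ^ 2) +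
                100 / (2 ^ rho w) ^ 2)) := mul_le_mul h6 h5 (by positivity) (by positivity)
          _ = _ := by
              field_simp
      refine (sum_le_sum h4).trans (le_of_eq ?_)
      rw [sum_add_distrib, ← mul_sum, sum_const, nsmul_eq_mul]
      ring
    refine (avZ_mono h3).trans ?_
    rw [avZ_add, avZ_mul, avZ_const]
    have h7 : A * (1 / 2 ^ m) * (10 ^ 6 / w) * avZ (fun n => ∑ q ∈ oct m,
          avE (2 ^ rho w) (2 ^ (w - rho w)) (fun e => (w : ℝ) / 10 ^ 6 *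
          ‖smp (ltr x n) m (kA q n.val ((l n : ℕ) / 2 ^ w)) e (k n q)‖ ^ 2)) ≤
        A * (1 / 2 ^ m) * (10 ^ 6 / w) * (
        avE (2 ^ rho w) (2 ^ (w - rho w)) (fun e =>
          info (tup x (pos e)) (2 ^ m) (primorial (2 ^ m)) (pr m)) + w * Real.log 2 +
        (oct m).card * Real.log (C * (2 ^ rho w + 1))) :=
      mul_le_mul_of_nonneg_left h2 (by positivity)
    refine (add_le_add_left h7 _).trans (le_of_eq ?_)
    ring
  refine hmain.trans ?_
  rw [← mul_sum, mul_assoc]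
  refine mul_le_mul_of_nonneg_left ?_ hA0.le
  -- bounds for the single parts
  obtain ⟨hr1, hr2⟩ := rho_pow w (by omega)
  have hr1' : (w : ℝ) < 2 ^ rho w := by exact_mod_cast hr1
  have hr2' : (2 : ℝ) ^ rho w ≤ 2 ^ 30 * w := by exact_mod_cast hr2
  have hrp : (0 : ℝ) < 2 ^ rho w := by positivity
  have hlw : 1 ≤ Real.log w := by
    rw [Real.le_log_iff_exp_le hw0]
    have := Real.exp_one_lt_d9
    linarith
  have hoc := oct_card_le (hqsu w)
  have hgeo := geo_le hw8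
  obtain ⟨hlogn, hlog⟩ := log_le hC hw8
  -- the information
  have p1 : ∑ m ∈ Ico (w / 400) (w / 200), (1 / 2 ^ m) * (10 ^ 6 / (w : ℝ) *
      avE (2 ^ rho w) (2 ^ (w - rho w)) (fun e =>
        info (tup x (pos e)) (2 ^ m) (primorial (2 ^ m)) (pr m))) =
      (10 ^ 6 / w * 2 ^ rho w) * inf x w := by
    unfold Pool.Agent.H93.ES.inf
    rw [mul_sum]
    refine sum_congr rfl fun m _ => ?_
    field_simp
  have hinf := inf_nonneg x w
  obtain ⟨S, hS⟩ : ∃ S : ℝ, S = ∑ m ∈ Ico (w / 400) (w / 200), (1 / 2 ^ m) * ((oct m).card : ℝ) :=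
    ⟨_, rfl⟩
  obtain ⟨G, hG⟩ : ∃ G : ℝ, G = ∑ m ∈ Ico (w / 400) (w / 200), (1 : ℝ) / 2 ^ m := ⟨_, rfl⟩
  rw [← hS] at hoc
  rw [← hG] at hgeo
  have hS0 : 0 ≤ S := by rw [hS]; exact sum_nonneg fun _ _ => by positivity
  have hG0 : 0 ≤ G := by rw [hG]; exact sum_nonneg fun _ _ => by positivity
  have hsplit : ∑ m ∈ Ico (w / 400) (w / 200), ((1 / 2 ^ m) * (10 ^ 6 / (w : ℝ) * (
        avE (2 ^ rho w) (2 ^ (w - rho w)) (fun e =>
          info (tup x (pos e)) (2 ^ m) (primorial (2 ^ m)) (pr m)) + w * Real.log 2 +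
        (oct m).card * Real.log (C * (2 ^ rho w + 1))) +
        (oct m).card * (100 / (2 ^ rho w) ^ 2))) =
      (10 ^ 6 / w * 2 ^ rho w) * Pool.Agent.H93.ES.inf x w + 10 ^ 6 * Real.log 2 * G +
      (10 ^ 6 / w * Real.log (C * (2 ^ rho w + 1))) * S + (100 / (2 ^ rho w) ^ 2) * S := by
    rw [← p1, hG, hS, mul_sum, mul_sum, mul_sum, ← sum_add_distrib, ← sum_add_distrib,
      ← sum_add_distrib]
    refine sum_congr rfl fun m _ => ?_
    field_simp
  rw [hsplit]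
  have q1 : (10 ^ 6 / (w : ℝ) * 2 ^ rho w) * Pool.Agent.H93.ES.inf x w ≤
      2 ^ 30 * 10 ^ 6 * Pool.Agent.H93.ES.inf x w := by
    refine mul_le_mul_of_nonneg_right ?_ hinf
    rw [div_mul_eq_mul_div, div_le_iff₀ hw0]
    linarith
  have q2 : 10 ^ 6 * Real.log 2 * G ≤ 2 * 10 ^ 6 * 400 * (Real.log w / w) := by
    have h1 : 10 ^ 6 * Real.log 2 * G ≤ 10 ^ 6 * 1 * (800 / w) := by
      have h2 := Real.log_two_lt_d9
      have h3 : 0 ≤ Real.log 2 := Real.log_nonneg (by norm_num)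
      exact mul_le_mul (by nlinarith) hgeo hG0 (by norm_num)
    refine h1.trans ?_
    have h4 : (10 : ℝ) ^ 6 * 1 * (800 / w) = 2 * 10 ^ 6 * 400 * (1 / w) := by ring
    rw [h4]
    have h5 : (1 : ℝ) / w ≤ Real.log w / w := div_le_div_of_nonneg_right hlw hw0.le
    exact mul_le_mul_of_nonneg_left h5 (by norm_num)
  have q3 : (10 ^ 6 / (w : ℝ) * Real.log (C * (2 ^ rho w + 1))) * S ≤
      2 * W * (10 ^ 6 * (Real.log C + 40)) * (Real.log w / w) := by
    have h1 : 10 ^ 6 / (w : ℝ) * Real.log (C * (2 ^ rho w + 1)) ≤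
        10 ^ 6 / (w : ℝ) * ((Real.log C + 40) * Real.log w) :=
      mul_le_mul_of_nonneg_left hlog (by positivity)
    calc (10 ^ 6 / (w : ℝ) * Real.log (C * (2 ^ rho w + 1))) * S ≤
          (10 ^ 6 / (w : ℝ) * ((Real.log C + 40) * Real.log w)) * (2 * W) :=
          mul_le_mul h1 hoc hS0 (by positivity)
      _ = 2 * W * (10 ^ 6 * (Real.log C + 40)) * (Real.log w / w) := by
          field_simp
  have q4 : (100 / (2 ^ rho w) ^ 2) * S ≤ 200 * W * (Real.log w / w) := by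
    have h1 : (100 : ℝ) / ((2 : ℝ) ^ rho w) ^ 2 ≤ 100 * (1 / (w : ℝ)) := by
      have h2 : (w : ℝ) ≤ ((2 : ℝ) ^ rho w) ^ 2 := by nlinarith
      have h3 : (1 : ℝ) / ((2 : ℝ) ^ rho w) ^ 2 ≤ 1 / (w : ℝ) := one_div_le_one_div_of_le hw0 h2
      calc (100 : ℝ) / ((2 : ℝ) ^ rho w) ^ 2 = 100 * (1 / ((2 : ℝ) ^ rho w) ^ 2) := by ring
        _ ≤ 100 * (1 / (w : ℝ)) := mul_le_mul_of_nonneg_left h3 (by norm_num)
    have h5 : (1 : ℝ) / w ≤ Real.log w / w := div_le_div_of_nonneg_right hlw hw0.le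
    calc (100 / (2 ^ rho w) ^ 2) * S ≤ (100 * (Real.log w / w)) * (2 * W) :=
          mul_le_mul (h1.trans (mul_le_mul_of_nonneg_left h5 (by norm_num))) hoc hS0
            (by positivity)
      _ = 200 * W * (Real.log w / w) := by ring
  have q5 : E * (Pool.Agent.H93.ES.inf x w + Real.log w / w) =
      2 ^ 30 * 10 ^ 6 * Pool.Agent.H93.ES.inf x w +
      (2 * 10 ^ 6 * 400 + 2 * W * (10 ^ 6 * (Real.log C + 40)) + 200 * W) *
        Pool.Agent.H93.ES.inf x w +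
      2 ^ 30 * 10 ^ 6 * (Real.log w / w) + 2 * 10 ^ 6 * 400 * (Real.log w / w) +
      2 * W * (10 ^ 6 * (Real.log C + 40)) * (Real.log w / w) +
      200 * W * (Real.log w / w) := by
    rw [hE]
    ring
  have q6 : 0 ≤ (2 * 10 ^ 6 * 400 + 2 * W * (10 ^ 6 * (Real.log C + 40)) + 200 * W) *
      Pool.Agent.H93.ES.inf x w := by positivity
  have q7 : 0 ≤ 2 ^ 30 * 10 ^ 6 * (Real.log w / w) := by positivity
  rw [q5]
  linarith

end Pool.Agent.H70.ES
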