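import Pool.Agent.H93.ES.Targets

/-!
# Means over samples and over the cyclic group
-/

set_option autoImplicit false

namespace Pool.Agent.H70.ES

open Finset Pool.Agent.H18.MR Pool.Agent.H93.DE Pool.Agent.H6.N4D Pool.Agent.H93.ES

lemma avE_mono {R D : ℕ} {F G : (Fin R → Fin D) → ℝ} (h : ∀ e, F e ≤ G e) :
    avE R D F ≤ avE R D G :=
  div_le_div_of_nonneg_right (sum_le_sum fun e _ => h e) (by positivity)

lemma avE_nonneg {R D : ℕ} {F : (Fin R → Fin D) → ℝ} (h : ∀ e, 0 ≤ F e) : 0 ≤ avE R D F :=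
  div_nonneg (sum_nonneg fun e _ => h e) (by positivity)

lemma avE_add {R D : ℕ} (F G : (Fin R → Fin D) → ℝ) :
    avE R D (fun e => F e + G e) = avE R D F + avE R D G := by
  simp [avE, sum_add_distrib, add_div]

lemma avE_mul {R D : ℕ} (c : ℝ) (F : (Fin R → Fin D) → ℝ) :
    avE R D (fun e => c * F e) = c * avE R D F := by
  simp [avE, ← mul_sum, mul_div_assoc]

lemma avE_div {R D : ℕ} (c : ℝ) (F : (Fin R → Fin D) → ℝ) :
    avE R D (fun e => F e / c) = avE R D F / c := by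
  simp only [div_eq_inv_mul]
  exact avE_mul _ _

lemma avE_sum {R D : ℕ} {ι : Type} (s : Finset ι) (F : ι → (Fin R → Fin D) → ℝ) :
    avE R D (fun e => ∑ i ∈ s, F i e) = ∑ i ∈ s, avE R D (F i) := by
  simp only [avE]
  rw [sum_comm, sum_div]

lemma avE_const {R D : ℕ} (hD : 0 < D) (c : ℝ) : avE R D (fun _ => c) = c := by
  have h : (D : ℝ) ^ R ≠ 0 := by
    have : (0 : ℝ) < D := by exact_mod_cast hD
    positivity
  unfold avE
  rw [sum_const, card_univ, Fintype.card_fun, Fintype.card_fin, Fintype.card_fin, nsmul_eq_mul]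
  push_cast
  field_simp

lemma avZ_mono {N : ℕ} [NeZero N] {F G : ZMod N → ℝ} (h : ∀ n, F n ≤ G n) : avZ F ≤ avZ G :=
  div_le_div_of_nonneg_right (sum_le_sum fun n _ => h n) (by positivity)

lemma avZ_nonneg {N : ℕ} [NeZero N] {F : ZMod N → ℝ} (h : ∀ n, 0 ≤ F n) : 0 ≤ avZ F :=
  div_nonneg (sum_nonneg fun n _ => h n) (by positivity)

lemma avZ_add {N : ℕ} [NeZero N] (F G : ZMod N → ℝ) :
    avZ (fun n => F n + G n) = avZ F + avZ G := by
  simp [avZ, sum_add_distrib, add_div]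

lemma avZ_mul {N : ℕ} [NeZero N] (c : ℝ) (F : ZMod N → ℝ) :
    avZ (fun n => c * F n) = c * avZ F := by
  simp [avZ, ← mul_sum, mul_div_assoc]

lemma avZ_sum {N : ℕ} [NeZero N] {ι : Type} (s : Finset ι) (F : ι → ZMod N → ℝ) :
    avZ (fun n => ∑ i ∈ s, F i n) = ∑ i ∈ s, avZ (F i) := by
  simp only [avZ]
  rw [sum_comm, sum_div]

lemma avZ_const {N : ℕ} [NeZero N] (c : ℝ) : avZ (fun _ : ZMod N => c) = c := by
  have h : (N : ℝ) ≠ 0 := by exact_mod_cast NeZero.ne N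
  unfold avZ
  rw [sum_const, card_univ, ZMod.card, nsmul_eq_mul]
  field_simp

lemma avZ_avE {N R D : ℕ} [NeZero N] (F : ZMod N → (Fin R → Fin D) → ℝ) :
    avZ (fun n => avE R D (F n)) = avE R D (fun e => avZ (fun n => F n e)) := by
  unfold avZ avE
  rw [← sum_div, ← sum_div, sum_comm, div_div, div_div, mul_comm]

/-! ### samples as functions of the words -/

/-- the mean of the blocks as a function of the words -/
noncomputable def smpW {R D : ℕ} (m : ℕ) (c : ℕ → ℂ) (e : Fin R → Fin D) (k : ℕ)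
    (W : Fin (2 ^ m) → Fin R → Bool) : ℂ :=
  (∑ r : Fin R, if (r : ℕ) < k then
    (∑ s : Fin (2 ^ m), (sg (W s r) : ℂ) * c (pos e r + s)) / 2 ^ m else 0) / R

lemma smp_eq {N R D : ℕ} (x : ZMod N → Bool) (n : ZMod N) (m : ℕ) (c : ℕ → ℂ)
    (e : Fin R → Fin D) (k : ℕ) :
    smp (ltr x n) m c e k = smpW m c e k (wd (tup x (pos e)) (2 ^ m) n) := by
  unfold smp smpW
  congr 1
  refine sum_congr rfl fun r _ => ?_
  by_cases h : (r : ℕ) < k
  · rw [if_pos h, if_pos h,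
      ← Fin.sum_univ_eq_sum_range (fun s => (ltr x n (pos e r + s) : ℂ) * c (pos e r + s)) (2 ^ m)]
    congr 1
    refine sum_congr rfl fun s _ => ?_
    have h1 : ltr x n (pos e r + s) = sg (wd (tup x (pos e)) (2 ^ m) n s r) := by
      unfold ltr wd tup
      have h2 : n + (((pos e r + s : ℕ)) : ZMod N) =
          n + ((s : ℕ) : ZMod N) + ((pos e r : ℕ) : ZMod N) := by
        push_cast
        ring
      rw [h2]
    rw [h1]
  · rw [if_neg h, if_neg h]

lemma dvd_mod {q r t : ℕ} : q ∣ r % q + t ↔ q ∣ r + t := by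
  rw [Nat.dvd_iff_mod_eq_zero, Nat.dvd_iff_mod_eq_zero, Nat.mod_add_mod]

lemma kA_mod (q r₀ : ℕ) (α : ℝ) : kA q (r₀ % q) α = kA q r₀ α := by
  funext t
  unfold kA DR
  simp only [dvd_mod]

lemma kB_mod (q r₀ : ℕ) (β : ℝ) : kB q (r₀ % q) β = kB q r₀ β := by
  funext t
  unfold kB
  simp only [dvd_mod]

lemma abs_ltr {N : ℕ} (x : ZMod N → Bool) (n : ZMod N) (t : ℕ) : |ltr x n t| ≤ 1 := by
  unfold ltr sg
  split_ifs <;> norm_num

/-! ### the primes of a level -/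

lemma mem_oct {m q : ℕ} (h : q ∈ oct m) : 2 ^ m < q ∧ q ≤ 2 ^ (m + 1) ∧ q.Prime := by
  unfold oct at h
  rw [mem_filter, mem_Ioc] at h
  exact ⟨h.1.1, h.1.2, h.2⟩

lemma primorial_dvd {a b : ℕ} (h : a ≤ b) : primorial a ∣ primorial b := by
  unfold primorial
  refine Finset.prod_dvd_prod_of_subset _ _ _ ?_
  intro p hp
  rw [mem_filter, mem_range] at hp ⊢
  exact ⟨by omega, hp.2⟩

lemma sum_QQ_le {w : ℕ} {F : ℕ → ℝ} (hF : ∀ q, 0 ≤ F q) :
    ∑ q ∈ Pool.Agent.H93.EB.QQ w, F q ≤ ∑ m ∈ Ico (w / 400) (w / 200), ∑ q ∈ oct m, F q := by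
  rw [sum_sigma']
  have hinj : Pool.Agent.H93.EB.QQ w ⊆
      ((Ico (w / 400) (w / 200)).sigma fun m => oct m).image (fun s => s.2) := by
    intro q hq
    unfold Pool.Agent.H93.EB.QQ at hq
    rw [mem_filter, mem_Ioc] at hq
    obtain ⟨⟨h1, h2⟩, h3⟩ := hq
    rw [mem_image]
    have hq2 : 2 ≤ q := h3.two_le
    refine ⟨⟨Nat.clog 2 q - 1, q⟩, ?_, rfl⟩
    rw [mem_sigma, mem_Ico]
    have hc1 : w / 400 < Nat.clog 2 q := (Nat.lt_clog_iff_pow_lt (by norm_num)).2 h1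
    have hc2 : Nat.clog 2 q ≤ w / 200 := (Nat.clog_le_iff_le_pow (by norm_num)).2 h2
    refine ⟨⟨by dsimp only; omega, by dsimp only; omega⟩, ?_⟩
    dsimp only
    unfold oct
    rw [mem_filter, mem_Ioc]
    refine ⟨⟨?_, ?_⟩, h3⟩
    · exact Nat.pow_pred_clog_lt_self (by norm_num) hq2
    · have : Nat.clog 2 q - 1 + 1 = Nat.clog 2 q := by omega
      rw [this]
      exact Nat.le_pow_clog (by norm_num) _
  calc ∑ q ∈ Pool.Agent.H93.EB.QQ w, F q ≤
        ∑ q ∈ ((Ico (w / 400) (w / 200)).sigma fun m => oct m).image (fun s => s.2), F q :=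
        sum_le_sum_of_subset_of_nonneg hinj fun q _ _ => hF q
    _ ≤ ∑ s ∈ (Ico (w / 400) (w / 200)).sigma fun m => oct m, F s.2 :=
        sum_image_le_of_nonneg fun q _ => hF q

end Pool.Agent.H70.ES
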